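import Pool.Agent.Q16.SubTop

/-!
# An open homomorphism of Hausdorff abelian groups without quasihomomorphism section
-/

open Topology Filter Set

noncomputable section

namespace Q16.QHom

/-- Finitely supported functions on the reals with rational values. -/
abbrev H0 : Type := ℝ →₀ ℚ

/-- The ambient group of `G0`. -/
abbrev Amb : Type := H0 × (ℕ → (ℝ →₀ ℤ))

/-- Pairs `(h, x)` with `x n = n! h` for almost all `n`. -/
def G0 : AddSubgroup Amb where
  carrier := {p | ∃ N, ∀ n ≥ N, ∀ y, ((p.2 n y : ℤ) : ℚ) = (n.factorial : ℚ) * p.1 y}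
  zero_mem' := ⟨0, fun n _ y => by simp⟩
  add_mem' := by
    rintro p q ⟨N, hN⟩ ⟨M, hM⟩
    refine ⟨max N M, fun n hn y => ?_⟩
    have h1 := hN n (le_trans (le_max_left _ _) hn) y
    have h2 := hM n (le_trans (le_max_right _ _) hn) y
    simp only [Prod.snd_add, Prod.fst_add, Pi.add_apply, Finsupp.add_apply, Int.cast_add, h1, h2]
    ring
  neg_mem' := by
    rintro p ⟨N, hN⟩
    refine ⟨N, fun n hn y => ?_⟩
    have h1 := hN n hn y
    simp only [Prod.snd_neg, Prod.fst_neg, Pi.neg_apply, Finsupp.neg_apply, Int.cast_neg, h1]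
    ring

abbrev G : Type := Multiplicative G0
abbrev H : Type := Multiplicative H0

/-- The countable subsets of the index set. -/
abbrev CS : Type := {C : Set ℝ // C.Countable}

def HV (C : CS) : Subgroup H where
  carrier := {h | ∀ y ∈ C.1, (Multiplicative.toAdd h) y = 0}
  one_mem' := fun y _ => rfl
  mul_mem' := by
    intro a b ha hb y hy
    have h1 := ha y hy
    have h2 := hb y hy
    simp [h1, h2]
  inv_mem' := by
    intro a ha y hy
    have h1 := ha y hy
    simp [h1]

theorem mem_HV {C : CS} {h : H} : h ∈ HV C ↔ ∀ y ∈ C.1, (Multiplicative.toAdd h) y = 0 := Iff.rfl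

def GV (i : CS × ℕ) : Subgroup G where
  carrier := {g | (∀ y ∈ i.1.1, (Multiplicative.toAdd g).1.1 y = 0) ∧
    ∀ k < i.2, (Multiplicative.toAdd g).1.2 k = 0}
  one_mem' := ⟨fun y _ => rfl, fun k _ => rfl⟩
  mul_mem' := by
    intro a b ha hb
    refine ⟨fun y hy => ?_, fun k hk => ?_⟩
    · have h1 := ha.1 y hy
      have h2 := hb.1 y hy
      simp [h1, h2]
    · have h1 := ha.2 k hk
      have h2 := hb.2 k hk
      simp [h1, h2]
  inv_mem' := by
    intro a ha
    refine ⟨fun y hy => ?_, fun k hk => ?_⟩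
    · have h1 := ha.1 y hy
      simp [h1]
    · have h1 := ha.2 k hk
      simp [h1]

theorem mem_GV {i : CS × ℕ} {g : G} : g ∈ GV i ↔ (∀ y ∈ i.1.1, (Multiplicative.toAdd g).1.1 y = 0) ∧
    ∀ k < i.2, (Multiplicative.toAdd g).1.2 k = 0 := Iff.rfl

def SH : SubBasis H CS where
  V := HV
  i₀ := ⟨∅, countable_empty⟩
  dir := by
    intro C D
    refine ⟨⟨C.1 ∪ D.1, C.2.union D.2⟩, ?_, ?_⟩
    · intro h hh y hy
      exact hh y (Or.inl hy)
    · intro h hh y hy
      exact hh y (Or.inr hy)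
  conj := by
    intro C g
    refine ⟨C, fun x hx => ?_⟩
    rwa [mul_inv_cancel_comm]

def SG : SubBasis G (CS × ℕ) where
  V := GV
  i₀ := (⟨∅, countable_empty⟩, 0)
  dir := by
    intro C D
    refine ⟨(⟨C.1.1 ∪ D.1.1, C.1.2.union D.1.2⟩, max C.2 D.2), ?_, ?_⟩
    · intro h hh
      exact ⟨fun y hy => hh.1 y (Or.inl hy), fun k hk => hh.2 k (lt_of_lt_of_le hk (le_max_left _ _))⟩
    · intro h hh
      exact ⟨fun y hy => hh.1 y (Or.inr hy), fun k hk => hh.2 k (lt_of_lt_of_le hk (le_max_right _ _))⟩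
  conj := by
    intro C g
    refine ⟨C, fun x hx => ?_⟩
    rwa [mul_inv_cancel_comm]

instance : TopologicalSpace H := SH.topology
instance : TopologicalSpace G := SG.topology
instance : IsTopologicalGroup H := SH.isTopologicalGroup
instance : IsTopologicalGroup G := SG.isTopologicalGroup

theorem toAdd_ext_H {h : H} (hh : ∀ y, (Multiplicative.toAdd h) y = 0) : h = 1 :=
  Multiplicative.toAdd.injective (Finsupp.ext hh)

instance : T2Space H := by
  apply SH.t2Space
  intro x hx
  apply toAdd_ext_H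
  intro y
  exact hx ⟨{y}, countable_singleton y⟩ y rfl

instance : T2Space G := by
  apply SG.t2Space
  intro x hx
  apply Multiplicative.toAdd.injective
  apply Subtype.ext
  apply Prod.ext
  · ext y
    exact (hx (⟨{y}, countable_singleton y⟩, 0)).1 y rfl
  · funext k
    exact (hx (⟨∅, countable_empty⟩, k + 1)).2 k (Nat.lt_succ_self k)

/-- The projection. -/
def f : G →* H := AddMonoidHom.toMultiplicative ((AddMonoidHom.fst H0 (ℕ → (ℝ →₀ ℤ))).comp G0.subtype)

theorem f_apply (g : G) : Multiplicative.toAdd (f g) = (Multiplicative.toAdd g).1.1 := rfl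

/-- The canonical lift: `x n = n! h` where this is integral and `n ≥ N`. -/
theorem exists_lift (h : H0) (N : ℕ) : ∃ g : G, Multiplicative.toAdd (f g) = h ∧
    ∀ k < N, (Multiplicative.toAdd g).1.2 k = 0 := by
  classical
  -- a common denominator
  let D : ℕ := ∏ y ∈ h.support, (h y).den
  have hD : ∀ n ≥ D, ∀ y, ∃ z : ℤ, (z : ℚ) = (n.factorial : ℚ) * h y := by
    intro n hn y
    by_cases hy : y ∈ h.support
    · have h1 : (h y).den ∣ D := Finset.dvd_prod_of_mem _ hy
      have h0 : 0 < D := Finset.prod_pos fun y _ => (h y).den_pos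
      have h2 : D ∣ n.factorial := Nat.dvd_factorial h0 hn
      obtain ⟨c, hc⟩ := h1.trans h2
      refine ⟨c * (h y).num, ?_⟩
      have h3 : (h y) * (h y).den = (h y).num := Rat.mul_den_eq_num (h y)
      rw [hc]
      push_cast
      rw [← h3]
      ring
    · have h1 : h y = 0 := by simpa using hy
      exact ⟨0, by simp [h1]⟩
  choose z hz using hD
  let x : ℕ → (ℝ →₀ ℤ) := fun n =>
    if hn : n ≥ D ∧ n ≥ N then Finsupp.onFinset h.support (fun y => z n hn.1 y) (by
      intro y hy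
      by_contra hyn
      have h1 : h y = 0 := by simpa using hyn
      have h2 := hz n hn.1 y
      rw [h1, mul_zero] at h2
      exact hy (by exact_mod_cast h2)) else 0
  have hx : (h, x) ∈ G0 := by
    refine ⟨max D N, fun n hn y => ?_⟩
    have hn' : n ≥ D ∧ n ≥ N := ⟨le_trans (le_max_left _ _) hn, le_trans (le_max_right _ _) hn⟩
    simp only [x, dif_pos hn', Finsupp.onFinset_apply]
    exact hz n hn'.1 y
  refine ⟨Multiplicative.ofAdd ⟨(h, x), hx⟩, rfl, ?_⟩
  intro k hk
  change x k = 0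
  simp only [x]
  rw [dif_neg]
  omega

theorem surjective_f : Function.Surjective f := by
  intro h
  obtain ⟨g, hg, _⟩ := exists_lift (Multiplicative.toAdd h) 0
  exact ⟨g, Multiplicative.toAdd.injective hg⟩

theorem continuous_f : Continuous f := by
  apply SG.continuous_hom SH
  intro C
  exact ⟨(C, 0), fun x hx y hy => hx.1 y hy⟩

theorem isOpenMap_f : IsOpenMap f := by
  apply SG.isOpenMap_hom SH
  intro C
  refine ⟨C.1, fun h hh => ?_⟩
  obtain ⟨g, hg, hg'⟩ := exists_lift (Multiplicative.toAdd h) C.2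
  refine ⟨g, ⟨fun y hy => ?_, hg'⟩, Multiplicative.toAdd.injective hg⟩
  rw [← f_apply, hg]
  exact hh y hy

theorem countable_of_continuousAt (s : H → G) (h1 : s 1 = 1)
    (hc : ContinuousAt (fun p : H × H => s p.1 * s p.2 * (s (p.1 * p.2))⁻¹) (1, 1)) (n : ℕ) :
    ∃ C : CS, ∀ a ∈ HV C, ∀ b ∈ HV C, (Multiplicative.toAdd (s a)).1.2 n +
      (Multiplicative.toAdd (s b)).1.2 n = (Multiplicative.toAdd (s (a * b))).1.2 n := by
  have hU : (GV (⟨∅, countable_empty⟩, n + 1) : Set G) ∈ 𝓝 (1 : G) := by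
    change _ ∈ @nhds G SG.topology 1
    rw [SG.mem_nhds_one]
    exact ⟨_, Subset.rfl⟩
  have hv : (fun p : H × H => s p.1 * s p.2 * (s (p.1 * p.2))⁻¹) (1, 1) = 1 := by
    simp [h1]
  have h2 := hc (by rw [hv]; exact hU)
  rw [mem_map, mem_nhds_prod_iff] at h2
  obtain ⟨U, hU', V, hV', hUV⟩ := h2
  have hU2 : U ∈ @nhds H SH.topology 1 := hU'
  have hV2 : V ∈ @nhds H SH.topology 1 := hV'
  rw [SH.mem_nhds_one] at hU2 hV2
  obtain ⟨C, hC⟩ := hU2
  obtain ⟨D, hD⟩ := hV2
  obtain ⟨K, hK1, hK2⟩ := SH.dir C D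
  refine ⟨K, fun a ha b hb => ?_⟩
  have h3 : (a, b) ∈ U ×ˢ V := ⟨hC (hK1 ha), hD (hK2 hb)⟩
  have h4 := (hUV h3).2 n (Nat.lt_succ_self n)
  have h5 : (Multiplicative.toAdd (s a)).1.2 n + (Multiplicative.toAdd (s b)).1.2 n
      - (Multiplicative.toAdd (s (a * b))).1.2 n = 0 := by
    rw [← h4]
    simp only [toAdd_mul, toAdd_inv, AddSubgroup.coe_add, NegMemClass.coe_neg, Prod.snd_add,
      Prod.snd_neg, Pi.add_apply, Pi.neg_apply]
    rw [sub_eq_add_neg]
  exact sub_eq_zero.1 h5

theorem no_section (s : H → G) (hs : ∀ h, f (s h) = h) (h1 : s 1 = 1)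
    (hc : ContinuousAt (fun p : H × H => s p.1 * s p.2 * (s (p.1 * p.2))⁻¹) (1, 1)) : False := by
  choose C hC using countable_of_continuousAt s h1 hc
  have hcount : (⋃ n, (C n).1).Countable := countable_iUnion fun n => (C n).2
  obtain ⟨x, hx⟩ : ∃ x, x ∉ ⋃ n, (C n).1 := by
    by_contra hn
    push Not at hn
    exact not_countable_univ (hcount.mono (fun x _ => hn x))
  let τ : ℕ → H0 → (ℝ →₀ ℤ) := fun n a => (Multiplicative.toAdd (s (Multiplicative.ofAdd a))).1.2 n
  have hτ0 : ∀ n, τ n 0 = 0 := by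
    intro n
    have : s (Multiplicative.ofAdd 0) = 1 := h1
    simp only [τ, this]
    rfl
  have hadd : ∀ n (a b : H0), (∀ y ∈ (C n).1, a y = 0) → (∀ y ∈ (C n).1, b y = 0) →
      τ n a + τ n b = τ n (a + b) := by
    intro n a b ha hb
    exact hC n (Multiplicative.ofAdd a) ha (Multiplicative.ofAdd b) hb
  have hsmul : ∀ n (a : H0), (∀ y ∈ (C n).1, a y = 0) → ∀ k : ℕ, τ n (k • a) = k • τ n a := by
    intro n a ha k
    induction k with
    | zero => simp [hτ0]
    | succ k ih =>
      rw [succ_nsmul, succ_nsmul, ← ih, hadd n (k • a) a _ ha]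
      intro y hy
      simp [ha y hy]
  have hxn : ∀ n, x ∉ (C n).1 := fun n hn => hx (mem_iUnion.2 ⟨n, hn⟩)
  have hzero : ∀ n, τ n (Finsupp.single x 1) = 0 := by
    intro n
    ext y
    by_contra hv
    let v := τ n (Finsupp.single x 1) y
    have hv0 : v ≠ 0 := hv
    let k : ℕ := v.natAbs + 1
    have hk0 : (k : ℚ) ≠ 0 := by positivity
    have h2 := hsmul n (Finsupp.single x ((k : ℚ)⁻¹)) (by
      intro y hy
      rw [Finsupp.single_apply, if_neg]
      rintro rfl
      exact hxn n hy) k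
    have h3 : k • (Finsupp.single x ((k : ℚ)⁻¹) : H0) = Finsupp.single x 1 := by
      rw [Finsupp.smul_single, nsmul_eq_mul, mul_inv_cancel₀ hk0]
    rw [h3] at h2
    have h4 : v = (k : ℤ) * (τ n (Finsupp.single x ((k : ℚ)⁻¹)) y) := by
      have := congrArg (fun g : ℝ →₀ ℤ => g y) h2
      simpa using this
    have h5 : (k : ℤ) ∣ v := ⟨_, h4⟩
    have h6 : k ≤ v.natAbs := by
      have := Int.natAbs_dvd_natAbs.2 h5
      simp only [Int.natAbs_natCast] at this
      exact Nat.le_of_dvd (Int.natAbs_pos.2 hv0) this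
    simp only [k] at h6
    omega
  obtain ⟨N, hN⟩ := (Multiplicative.toAdd (s (Multiplicative.ofAdd (Finsupp.single x 1)))).2
  have h7 := hN N le_rfl x
  have h8 : (Multiplicative.toAdd (s (Multiplicative.ofAdd (Finsupp.single x 1)))).1.1 =
      Finsupp.single x 1 := by
    rw [← f_apply, hs]
    rfl
  have h9 : (Multiplicative.toAdd (s (Multiplicative.ofAdd (Finsupp.single x 1)))).1.2 N x = 0 := by
    have := congrArg (fun g : ℝ →₀ ℤ => g x) (hzero N)
    simpa using this
  rw [h9, h8] at h7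
  simp only [Int.cast_zero, Finsupp.single_eq_same, mul_one] at h7
  exact (Nat.factorial_ne_zero N) (by exact_mod_cast h7.symm)

end Q16.QHom
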